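import Pool.Agent.H58.SF.Targets

/-!
# pp-powers have finitely many orbits on tuples
-/

namespace Pool.Agent.H81.SF

open Pool.Agent.H68.BP Pool.Agent.H58.SF

theorem holds_aut {σ : Sig} {A X : Type} {𝔸 : Str σ A} {g : A ≃ A} (hg : IsAut 𝔸 g)
    (a : Atom σ X) (v : X → A) : a.Holds 𝔸 v ↔ a.Holds 𝔸 (fun x => g (v x)) := by
  cases a with
  | eq x y => exact g.injective.eq_iff.symm
  | rel l t => exact hg l fun i => v (t i)

theorem pp_aut {σ : Sig} {A I : Type} {𝔸 : Str σ A} {g : A ≃ A} (hg : IsAut 𝔸 g)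
    {S : Set (I → A)} (hS : PPDefinable 𝔸 S) (z : I → A) : z ∈ S ↔ (fun i => g (z i)) ∈ S := by
  obtain ⟨q, φ, h⟩ := hS
  rw [h, h]
  constructor
  · rintro ⟨y, hy⟩
    refine ⟨fun j => g (y j), fun a ha => ?_⟩
    have h1 := (holds_aut hg a _).1 (hy a ha)
    convert h1 using 1
    funext x
    rcases x with x | x <;> rfl
  · rintro ⟨y, hy⟩
    refine ⟨fun j => g.symm (y j), fun a ha => ?_⟩
    rw [holds_aut hg a]
    have h1 := hy a ha
    convert h1 using 1
    funext x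
    rcases x with x | x <;> simp

theorem pf_PO : T_PO := by
  classical
  intro σ τ A 𝔸 n ℙ hP hO r
  obtain ⟨R₀, hR₀⟩ := hO (r * n)
  refine ⟨R₀.image fun y i j => y (finProdFinEquiv (i, j)), fun x => ?_⟩
  obtain ⟨y, hy, g, hg, h1⟩ := hR₀ fun m => x (finProdFinEquiv.symm m).1 (finProdFinEquiv.symm m).2
  refine ⟨_, Finset.mem_image_of_mem _ hy, Equiv.piCongrRight fun _ => g, ?_, ?_⟩
  · intro l z
    exact pp_aut hg (hP l) fun p => z p.1 p.2
  · intro i
    funext j
    have h2 := h1 (finProdFinEquiv (i, j))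
    rw [Equiv.symm_apply_apply] at h2
    exact h2

end Pool.Agent.H81.SF
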