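import Pool.Agent.H45.SF.GT
import Pool.Agent.H9.SF.Bas

/-! AD of the board sf_modules: dense sets. -/

open Ordinal Cardinal Order Set
open scoped ZFSet

namespace SF.H81

open SF

theorem ad (hTR : T_TR) : T_AD := by
  intro B _ N' N b σ hNP hm _ C' C hC D E hDE
  classical
  have hle : σ D E ≤ b := by
    rw [← hm.tot D (hm.dom D E hDE).1]
    exact le_iSup (fun y => σ D y) E
  have key : ∀ R : (V → Prop) → (ℕ → V) → Prop, Dfb ZFm R →
      (R (· ∈ N') (fun i => (if i = 0 then (C', C) else (D, E)).1) ↔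
        R (· ∈ N) (fun i => (if i = 0 then (C', C) else (D, E)).2)) := by
    intro R hR
    refine hTR R hR B N' N b σ hNP hm {(C', C), (D, E)} ?_
      (fun i => if i = 0 then (C', C) else (D, E)) ?_
    · rw [Finset.inf_insert, Finset.inf_singleton]
      show σ C' C ⊓ σ D E ≠ ⊥
      rw [hC, inf_eq_right.2 hle]
      exact hDE
    · intro i
      by_cases hi : i = 0
      · simp [hi]
      · simp [hi]
  refine ⟨?_, ?_⟩
  · have h := key (fun _ v => v 1 ⊆ v 0) (Dfb.subset (Tm.var 1) (Tm.var 0))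
    simpa using h
  · have h1 : Dfb ZFm (fun _ v => v 0 ≠ ∅ ∧ v 0 ⊆ v 1) :=
      (Dfb.eq (Tm.var 0) Tm.empty).not.and (Dfb.subset (Tm.var 0) (Tm.var 1))
    have h2 : Dfb ZFm (fun _ v => ∃ d ∈ v 2, d ≠ ∅ ∧ d ⊆ v 0) :=
      (Dfb.bex ktr_zfm (Tm.var 2) h1).congr fun _ _ _ _ => Iff.rfl
    have h3 : Dfb ZFm (fun _ v => v 0 ≠ ∅ → ∃ d ∈ v 2, d ≠ ∅ ∧ d ⊆ v 0) :=
      (Dfb.eq (Tm.var 0) Tm.empty).not.imp h2
    have h4 : Dfb ZFm (fun _ v => ∀ x ∈ v 0, x ≠ ∅ → ∃ d ∈ v 1, d ≠ ∅ ∧ d ⊆ x) :=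
      (Dfb.ball ktr_zfm (Tm.var 0) h3).congr fun _ _ _ _ => Iff.rfl
    have h := key _ h4
    simpa using h

end SF.H81
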