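import Pool.Agent.H9.SF.QDefs

/-! QI of the board sf_modules: translation of the forcing axiom into sets. -/

set_option linter.unusedVariables false

open Ordinal Cardinal Order Set
open scoped ZFSet

namespace SF.H81

open SF

private theorem mkEl_val {B : V} [IsCBA B] {x : V} (hx : x ∈ B) : (mkEl B x).val = x := by
  unfold mkEl
  rw [dif_pos hx]

private theorem val_ne {B : V} [IsCBA B] {x : El B} (hx : x ≠ ⊥) : x.val ≠ ∅ := by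
  intro h
  apply hx
  apply El.ext
  rw [El.bot_val]
  exact h

private theorem ne_bot {B : V} [IsCBA B] {x : El B} (hx : x.val ≠ ∅) : x ≠ ⊥ := by
  intro h
  apply hx
  rw [h, El.bot_val]

theorem qi : T_QI := by
  intro A hA mu ρ b0 hρ hG hb0 d _ hd b hb hbne hbb0
  have hw : ∀ x ∈ w1, ∃ i < o1, x = i.toZFSet := by
    intro x hx
    obtain ⟨i, hi, rfl⟩ := mem_toZFSet_iff.1 hx
    exact ⟨i, hi, rfl⟩
  have hw1 : ∀ i < o1, i.toZFSet ∈ w1 := fun i hi => toZFSet_mem_toZFSet_iff.2 hi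
  have hdm : ∀ i < o1, ∀ ξ ∈ mu, app d (ZFSet.pair i.toZFSet ξ) ∈ A.B := fun i hi ξ hξ =>
    app_mem hd.1 (ZFSet.pair_mem_prod.2 ⟨toZFSet_mem_toZFSet_iff.2 hi, hξ⟩)
  have hρm : ∀ ξ ∈ mu, ∀ η ∈ mu, app ρ (ZFSet.pair ξ η) ∈ A.B := fun ξ hξ η hη =>
    app_mem hρ.func (ZFSet.pair_mem_prod.2 ⟨hξ, hη⟩)
  have hrv : ∀ ξ ∈ mu, ∀ η ∈ mu, (rv A ρ ξ η).val = app ρ (ZFSet.pair ξ η) := fun ξ hξ η hη =>
    mkEl_val (hρm ξ hξ η hη)
  let d1 : Ordinal.{0} → V → El A.B := fun i ξ => mkEl A.B (app d (ZFSet.pair i.toZFSet ξ))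
  have hd1 : ∀ i < o1, ∀ ξ ∈ mu, (d1 i ξ).val = app d (ZFSet.pair i.toZFSet ξ) := fun i hi ξ hξ =>
    mkEl_val (hdm i hi ξ hξ)
  have hdns : ∀ i < o1, DnsQ A mu ρ (d1 i) := by
    intro i hi bb hbb ξ hξ
    obtain ⟨b1, hb1, hb1ne, hb1b, η, hη, hb1η⟩ :=
      hd.2 i.toZFSet (toZFSet_mem_toZFSet_iff.2 hi) bb.val bb.mem (val_ne hbb) ξ hξ
    refine ⟨⟨b1, hb1⟩, ne_bot hb1ne, El.le_iff.2 hb1b, η, hη, El.le_iff.2 ?_⟩
    rw [El.inf_val, hrv η hη ξ hξ, hd1 i hi η hη]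
    exact hb1η
  obtain ⟨b2, hb2, hb2ne, s, m, p, h1, h2, h3, h4⟩ :=
    hA mu ρ b0 hρ hG d1 hdns ⟨b, hb⟩ (ne_bot hbne) hbb0 hb0
  have hS : ∀ i < o1, ∀ ξ ∈ mu, app (resS (ZFSet.prod w1 mu)
      (fun q => (s (fst q).rank (snd q)).val)) (ZFSet.pair i.toZFSet ξ) = (s i ξ).val := by
    intro i hi ξ hξ
    rw [app_resS (ZFSet.pair_mem_prod.2 ⟨hw1 i hi, hξ⟩), fst_pair, snd_pair, rank_toZFSet]
  have hM : ∀ i < o1, app (resS w1 (fun x => (m x.rank).toZFSet)) i.toZFSet = (m i).toZFSet := by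
    intro i hi
    rw [app_resS (hw1 i hi), rank_toZFSet]
  have hP : ∀ i < o1, ∀ j < o1, app (resS (ZFSet.prod w1 w1)
      (fun q => (p (fst q).rank (snd q).rank).toZFSet)) (ZFSet.pair i.toZFSet j.toZFSet) =
        (p i j).toZFSet := by
    intro i hi j hj
    rw [app_resS (ZFSet.pair_mem_prod.2 ⟨hw1 i hi, hw1 j hj⟩), fst_pair, snd_pair, rank_toZFSet,
      rank_toZFSet]
  refine ⟨b2.val, b2.mem, val_ne hb2ne, El.le_iff.1 hb2,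
    resS (ZFSet.prod w1 mu) (fun q => (s (fst q).rank (snd q)).val), trivial,
    resS w1 (fun x => (m x.rank).toZFSet), trivial,
    resS (ZFSet.prod w1 w1) (fun q => (p (fst q).rank (snd q).rank).toZFSet), trivial, ?_⟩
  refine ⟨?_, ?_, ?_, ?_, ?_, ?_, ?_⟩
  · exact isFunc_resS _ _ _ fun x _ => (s (fst x).rank (snd x)).mem
  · refine isFunc_resS _ _ _ fun x hx => ?_
    obtain ⟨i, hi, rfl⟩ := hw x hx
    rw [rank_toZFSet]
    exact toZFSet_mem_toZFSet_iff.2 (h3 i hi).1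
  · refine isFunc_resS _ _ _ fun x hx => ?_
    obtain ⟨a, ha, c, hc, rfl⟩ := ZFSet.mem_prod.1 hx
    obtain ⟨i, hi, rfl⟩ := hw a ha
    obtain ⟨j, hj, rfl⟩ := hw c hc
    rw [fst_pair, snd_pair, rank_toZFSet, rank_toZFSet]
    exact toZFSet_mem_toZFSet_iff.2 (h4 i hi j hj).1
  · intro n hn x hx hxne hxb2
    obtain ⟨i, hi, rfl⟩ := hw n hn
    by_contra hc
    push Not at hc
    have hz : (⟨x, hx⟩ : El A.B) ⊓ b2 = ⊥ := by
      rw [← h1 i hi, inf_iSup_eq]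
      refine iSup_eq_bot.2 fun ξ => ?_
      apply El.ext
      rw [El.inf_val, El.bot_val, ← hS i hi ξ.val ξ.mem]
      exact hc ξ.val ξ.mem
    have hxle : (⟨x, hx⟩ : El A.B) ≤ b2 := El.le_iff.2 hxb2
    rw [inf_eq_left.2 hxle] at hz
    exact ne_bot (x := (⟨x, hx⟩ : El A.B)) hxne hz
  · intro n hn ξ hξ η hη hne
    obtain ⟨i, hi, rfl⟩ := hw n hn
    rw [hS i hi ξ hξ, hS i hi η hη, ← El.inf_val, h2 i hi ξ hξ η hη hne, El.bot_val]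
  · intro n hn ξ hξ
    obtain ⟨i, hi, rfl⟩ := hw n hn
    rw [hM i hi, hS _ (h3 i hi).1 ξ hξ, ← hd1 i hi ξ hξ]
    exact El.le_iff.1 ((h3 i hi).2 ξ hξ)
  · intro n hn l hl ζ hζ ξ hξ
    obtain ⟨i, hi, rfl⟩ := hw n hn
    obtain ⟨j, hj, rfl⟩ := hw l hl
    obtain ⟨h5, h6⟩ := h4 i hi j hj
    obtain ⟨h7, h8⟩ := h6 ζ hζ ξ hξ
    rw [hP i hi j hj, hS _ h5 ζ hζ, hS i hi ξ hξ, hS j hj ξ hξ, ← El.inf_val, ← El.inf_val,
      ← hrv ζ hζ ξ hξ]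
    exact ⟨El.le_iff.1 h7, El.le_iff.1 h8⟩

end SF.H81
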