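import Pool.Agent.H72.SF.XT

/-! XL of the board sf_modules: the density of long conditions. -/

open Ordinal Cardinal Order Set
open scoped ZFSet

namespace SF.H81

open SF

private theorem xl_isT {t : V} {m δ : Ordinal.{0}} (ht : IsT t m) (hmδ : m < δ)
    (hδ : δ < Ordinal.omega.{0} 1) : IsT (insert δ.toZFSet t) δ where
  lt := hδ
  max := ZFSet.mem_insert _ _
  ord x hx := by
    rcases ZFSet.mem_insert_iff.1 hx with rfl | hx
    · exact ⟨δ, le_rfl, rfl⟩
    · obtain ⟨α, hα, rfl⟩ := ht.ord x hx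
      exact ⟨α, hα.trans hmδ.le, rfl⟩
  closed α hα hα0 hlim := by
    rcases hα.eq_or_lt with rfl | hα
    · exact ZFSet.mem_insert _ _
    · have hlim' : ∀ β < α, ∃ γ : Ordinal.{0}, β < γ ∧ γ < α ∧ γ.toZFSet ∈ t := by
        intro β hβ
        obtain ⟨γ, h1, h2, h3⟩ := hlim β hβ
        rcases ZFSet.mem_insert_iff.1 h3 with h3 | h3
        · have h4 := toZFSet_injective h3
          subst h4
          exact absurd (h2.trans hα) (lt_irrefl _)
        · exact ⟨γ, h1, h2, h3⟩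
      have hαm : α ≤ m := by
        by_contra hc
        push Not at hc
        obtain ⟨γ, h1, h2, h3⟩ := hlim' m hc
        obtain ⟨γ', h4, h5⟩ := ht.ord _ h3
        have h6 := toZFSet_injective h5
        subst h6
        exact absurd h1 (not_lt.2 h4)
      exact ZFSet.mem_insert_of_mem _ (ht.closed α hαm hα0 hlim')

theorem xl (hX3 : T_X3) : T_XL := by
  intro C hC r z hz β hβ
  unfold QC at hz ⊢
  rw [ZFSet.mem_sep] at hz
  obtain ⟨hzp, hz0, ⟨m, hm⟩, hzt⟩ := hz
  obtain ⟨a, ha, t, ht, rfl⟩ := ZFSet.mem_prod.1 hzp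
  rw [fst_pair] at hz0 hzt
  rw [snd_pair] at hm hzt
  have hc0 : (⟨a, ha⟩ : El C.B) ≠ ⊥ := by
    intro h
    apply hz0
    have h1 : (⟨a, ha⟩ : El C.B).val = (⊥ : El C.B).val := by rw [h]
    rw [El.bot_val] at h1
    exact h1
  obtain ⟨δ, hδ1, hδ2, hδ3⟩ := hX3 C hC r ⟨a, ha⟩ hc0 (max m β) (max_lt hm.lt hβ)
  have hmδ : m < δ := (le_max_left _ _).trans_lt hδ1
  have hβδ : β < δ := (le_max_right _ _).trans_lt hδ1
  have hT := xl_isT hm hmδ hδ2
  set b1 : El C.B := ⟨a, ha⟩ ⊓ apx C r δ.toZFSet with hb1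
  have hle : b1 ≤ (⟨a, ha⟩ : El C.B) := inf_le_left
  have hb1a : b1.val ⊆ a := El.le_iff.1 hle
  have hat : (⟨a, ha⟩ : El C.B) ≤ tau C r t := El.le_iff.2 hzt
  refine ⟨ZFSet.pair b1.val (insert δ.toZFSet t), ?_, ?_, ?_⟩
  · rw [ZFSet.mem_sep, fst_pair, snd_pair]
    refine ⟨?_, ?_, ⟨δ, hT⟩, ?_⟩
    · rw [ZFSet.pair_mem_prod]
      refine ⟨b1.mem, ?_⟩
      rw [ZFSet.mem_powerset] at ht ⊢
      intro x hx
      rcases ZFSet.mem_insert_iff.1 hx with rfl | hx
      · exact toZFSet_mem_toZFSet_iff.2 hδ2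
      · exact ht hx
    · intro h
      apply hδ3
      apply El.ext
      rw [El.bot_val]
      exact h
    · refine El.le_iff.1 ?_
      unfold tau
      refine le_iInf fun x => ?_
      rcases ZFSet.mem_insert_iff.1 x.mem with h | h
      · rw [h]
        exact inf_le_right
      · exact (hle.trans hat).trans (iInf_le (fun δ : El t => apx C r δ.val) ⟨x.val, h⟩)
  · refine ⟨?_, ?_⟩
    · rw [fst_pair, fst_pair]
      exact hb1a
    · rw [snd_pair, snd_pair]
      refine ⟨fun x hx => ZFSet.mem_insert_of_mem _ hx, fun x hx => ?_⟩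
      rcases ZFSet.mem_insert_iff.1 hx with rfl | hx
      · refine Or.inr fun y hy => ?_
        obtain ⟨α, hα, rfl⟩ := hm.ord y hy
        exact toZFSet_mem_toZFSet_iff.2 (hα.trans_lt hmδ)
      · exact Or.inl hx
  · refine ⟨δ, ?_, hβδ.le⟩
    rw [snd_pair]
    exact hT

end SF.H81
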